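import Pool.Agent.W966.Vf.Gen
import Pool.Agent.Y538.Par.Basic

/-!
# Nondeterministic algorithms with checked guesses for matrix multiplication
-/

set_option autoImplicit false

namespace Pool.Agent.R562.NV

open MvPolynomial Module Filter Pool.Agent.W966.Mm Pool.Agent.W966.Vf
open Pool.Agent.H515R2.MMR (omega)

section

variable {K : Type} [Field K] {n : ℕ}

/-- On the input `A, B` the algorithm, with `Q` values of advice and at most `L` multiplications
and divisions in a run, is reliable in `K₀` entries up to `M` candidates: for some choice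
`a 0, …, a (Q - 1)` of the advice and some matrices `𝒞 0, …, 𝒞 (M - 1)`, whatever its guesses and
its random choices are, a run which stops with an output agrees with one of the `𝒞 i` in at least
`K₀` entries, and there is a run whose output is such that all entries which it has in common with
one of the `𝒞 i`, if there are at least `K₀` of them, are the entries of the product `A B`. -/
def Reliable (t : QTree K n) (Q L K₀ M : ℕ) (A B : Matrix (Fin n) (Fin n) K) : Prop :=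
  ∃ (a : ℕ → K) (𝒞 : Fin M → Matrix (Fin n) (Fin n) K),
    (∀ C ∈ Outputs t A B Q a L, ∃ i, AgreeIn K₀ C (𝒞 i)) ∧
    ∃ C₀ ∈ Outputs t A B Q a L, ∀ i, AgreeIn K₀ C₀ (𝒞 i) →
      ∀ u v, C₀ u v = 𝒞 i u v → C₀ u v = (A * B) u v

theorem reliable_of_agree {t : QTree K n} {Q L K₀ : ℕ} {A B : Matrix (Fin n) (Fin n) K}
    {a : ℕ → K} (h : ∀ C ∈ Outputs t A B Q a L, AgreeIn K₀ C (A * B))
    (h0 : (Outputs t A B Q a L).Nonempty) : Reliable t Q L K₀ 1 A B := by
  obtain ⟨C₀, hC₀⟩ := h0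
  exact ⟨a, fun _ => A * B, fun C hC => ⟨0, h C hC⟩, C₀, hC₀, fun _ _ u v h => h⟩

theorem reliable_of_card {t : QTree K n} {Q L M : ℕ} {A B : Matrix (Fin n) (Fin n) K}
    {a : ℕ → K} (h : (Outputs t A B Q a L).encard ≤ M) (h0 : A * B ∈ Outputs t A B Q a L) :
    Reliable t Q L (n ^ 2) M A B := by
  classical
  have hfin : (Outputs t A B Q a L).Finite := by
    refine Set.finite_of_encard_le_coe h
  have hcard : hfin.toFinset.card ≤ M := by
    have : (Outputs t A B Q a L).encard = (hfin.toFinset.card : ℕ∞) :=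
      hfin.encard_eq_coe_toFinset_card
    rw [this] at h
    exact_mod_cast h
  have hall : ∀ C : Matrix (Fin n) (Fin n) K, AgreeIn (n ^ 2) C C := by
    intro C
    unfold AgreeIn
    simp [sq]
  obtain ⟨C1, hC1⟩ : ∃ f : Fin M → Matrix (Fin n) (Fin n) K,
      Outputs t A B Q a L ⊆ Set.range f := by
    have hM : 0 < M := by
      refine lt_of_lt_of_le ?_ hcard
      exact Finset.card_pos.mpr ⟨A * B, hfin.mem_toFinset.mpr h0⟩
    obtain ⟨g⟩ : Nonempty (hfin.toFinset ↪ Fin M) := by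
      refine Function.Embedding.nonempty_of_card_le ?_
      simpa using hcard
    refine ⟨fun i => if h : ∃ x, g x = i then (h.choose : Matrix (Fin n) (Fin n) K) else A * B,
      fun C hC => ⟨g ⟨C, hfin.mem_toFinset.mpr hC⟩, ?_⟩⟩
    have hex : ∃ x, g x = g ⟨C, hfin.mem_toFinset.mpr hC⟩ := ⟨_, rfl⟩
    simp only [hex, dif_pos]
    have := g.injective hex.choose_spec
    rw [this]
  refine ⟨a, C1, fun C hC => ?_, A * B, h0, fun i _ u v _ => rfl⟩
  obtain ⟨i, rfl⟩ := hC1 hC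
  exact ⟨i, hall _⟩

end

theorem main {K : Type} [Field K] [IsAlgClosed K] [CharZero K] {n m L Q K₀ M : ℕ}
    (t : QTree K n) (H : DenseFor (Reliable t Q L K₀ M)) (hm0 : 0 < m) (hm : m ≤ n)
    (hdim : Q + n ^ 2 < (n - m + 1) ^ 2 + K₀) : (m : ℝ) ^ omega ≤ 2 * L := by
  refine gen_bound (Q := Q) (K₀ := K₀) (M := M) t ?_ hm0 hm hdim
  intro p hp
  obtain ⟨A, B, h1, a, 𝒞, h2, C₀, h3, h4⟩ := H p hp
  refine ⟨A, B, h1, a, 𝒞, h2, C₀, h3, ?_⟩
  classical
  intro i S hS hSC v hv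
  have hag : AgreeIn K₀ C₀ (𝒞 i) := by
    unfold AgreeIn
    refine hS.trans (Finset.card_le_card ?_)
    intro w hw
    simp only [Finset.mem_filter, Finset.mem_univ, true_and]
    exact hSC w hw
  have := h4 i hag v.1 v.2 (hSC v hv)
  rw [← hSC v hv]
  exact this

/-- A bound which holds infinitely often bounds the exponent. -/
theorem le_of_frequently {w τ c D : ℝ} (hc : 0 < c)
    (h : ∃ᶠ n : ℕ in atTop, c * (n : ℝ) ^ w ≤ D * (n : ℝ) ^ τ) : w ≤ τ := by
  by_contra hlt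
  push Not at hlt
  have hpos : 0 < w - τ := sub_pos.mpr hlt
  have h1 : Tendsto (fun n : ℕ => (n : ℝ) ^ (w - τ)) atTop atTop :=
    (tendsto_rpow_atTop hpos).comp tendsto_natCast_atTop_atTop
  have h2 : ∀ᶠ n : ℕ in atTop, D / c < (n : ℝ) ^ (w - τ) := h1.eventually_gt_atTop _
  obtain ⟨n, hn, hn1, hn2⟩ := (h.and_eventually (h2.and (eventually_gt_atTop 0))).exists
  have hn0 : (0 : ℝ) < n := by exact_mod_cast hn2
  have h3 : (n : ℝ) ^ w = (n : ℝ) ^ (w - τ) * (n : ℝ) ^ τ := by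
    rw [← Real.rpow_add hn0]
    ring_nf
  have h4 : (0 : ℝ) < (n : ℝ) ^ τ := Real.rpow_pos_of_pos hn0 _
  rw [h3, ← mul_assoc] at hn
  have h5 : c * (n : ℝ) ^ (w - τ) ≤ D := le_of_mul_le_mul_right hn h4
  rw [div_lt_iff₀ hc] at hn1
  nlinarith

theorem exponent {K : Type} [Field K] [IsAlgClosed K] [CharZero K] (τ ε D : ℝ) (hε : 0 < ε)
    (h : ∃ᶠ n : ℕ in atTop, ∃ (t : QTree K n) (L Q K₀ M : ℕ), (L : ℝ) ≤ D * (n : ℝ) ^ τ ∧
      Q + ε * (n : ℝ) ^ 2 ≤ K₀ ∧ DenseFor (Reliable t Q L K₀ M)) : omega ≤ τ := by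
  have hω : 0 ≤ omega := by
    have := Pool.Agent.Y538.Par.two_le_omega
    linarith
  have hc : (0 : ℝ) < (min ε 1 / 4) ^ omega := Real.rpow_pos_of_pos (by positivity) _
  refine le_of_frequently (c := (min ε 1 / 4) ^ omega) (D := 2 * D) hc ?_
  refine (h.and_eventually (eventually_gt_atTop 0)).mono ?_
  rintro n ⟨⟨t, L, Q, K₀, M, hL, hQ, H⟩, hn⟩
  have hn0 : (0 : ℝ) < n := by exact_mod_cast hn
  set η : ℝ := min ε 1 with hη
  have hη0 : 0 < η := lt_min hε one_pos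
  have hη1 : η ≤ 1 := min_le_right _ _
  have hηε : η ≤ ε := min_le_left _ _
  -- the size
  obtain ⟨m, hm0, hmn, hmη, hηm⟩ : ∃ m : ℕ, 0 < m ∧ m ≤ n ∧ (m : ℝ) < η / 2 * n + 1 ∧
      η / 4 * n ≤ m := by
    refine ⟨⌈η / 2 * n⌉₊, Nat.ceil_pos.mpr (by positivity), ?_, Nat.ceil_lt_add_one (by positivity),
      ?_⟩
    · refine Nat.ceil_le.mpr ?_
      nlinarith
    · refine le_trans ?_ (Nat.le_ceil _)
      nlinarith [mul_pos hη0 hn0]
  have hdim : Q + n ^ 2 < (n - m + 1) ^ 2 + K₀ := by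
    have e1 : ((n - m + 1 : ℕ) : ℝ) = (n : ℝ) - m + 1 := by
      push_cast [Nat.cast_sub hmn]
      ring
    have e2 : (1 - η / 2) * n < (n : ℝ) - m + 1 := by linarith
    have e3 : 0 ≤ (1 - η / 2) * n := by
      have : 0 ≤ 1 - η / 2 := by linarith
      positivity
    have e4 : ((1 - η / 2) * n) ^ 2 < ((n : ℝ) - m + 1) ^ 2 := by
      exact pow_lt_pow_left₀ e2 e3 two_ne_zero
    have e5 : (1 - η) * (n : ℝ) ^ 2 ≤ ((1 - η / 2) * n) ^ 2 := by
      nlinarith [sq_nonneg (η / 2 * n)]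
    have e6 : (Q : ℝ) + η * (n : ℝ) ^ 2 ≤ K₀ := by
      refine le_trans ?_ hQ
      have : η * (n : ℝ) ^ 2 ≤ ε * (n : ℝ) ^ 2 := mul_le_mul_of_nonneg_right hηε (by positivity)
      linarith
    have e7 : ((Q + n ^ 2 : ℕ) : ℝ) < (((n - m + 1) ^ 2 + K₀ : ℕ) : ℝ) := by
      push_cast
      rw [← Nat.cast_add_one, Nat.cast_add_one, Nat.cast_sub hmn]
      nlinarith
    exact_mod_cast e7
  have h1 := main t H hm0 hmn hdim
  have h2 : (η / 4) ^ omega * (n : ℝ) ^ omega ≤ (m : ℝ) ^ omega := by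
    rw [← Real.mul_rpow (by positivity) (by positivity)]
    exact Real.rpow_le_rpow (by positivity) hηm hω
  calc (η / 4) ^ omega * (n : ℝ) ^ omega ≤ (m : ℝ) ^ omega := h2
    _ ≤ 2 * L := h1
    _ ≤ 2 * D * (n : ℝ) ^ τ := by nlinarith

end Pool.Agent.R562.NV
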